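import Pool.Agent.Work.MP_edc67c_co.Auto

/-!
Every automorphism of the tree of standard Young tableaux is a (possibly infinite) composition of
branch exchanges.
-/

namespace Pool.Agent.Results.MP_edc67c_co.BranchExchanges

open Pool.Agent.Work.MP_edc67c_co

/-- There is a branch exchange at each tableau of symmetric shape and each of its addable cells;
and for every automorphism `φ` of the tree of standard Young tableaux and every `N` some finite
composition of branch exchanges agrees with `φ` on all tableaux of size at most `N`. -/
theorem result :
    (∀ (T : Tab) (c : ℕ × ℕ), SymmShape T.1 → Addable T.1 c →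
      ∃ ψ : tree ≃g tree, IsBranchExchange T c ψ) ∧
    ∀ (φ : tree ≃g tree) (N : ℕ), ∃ ψ ∈ Subgroup.closure
        {ψ : tree ≃g tree | ∃ (T : Tab) (c : ℕ × ℕ), IsBranchExchange T c ψ},
      ∀ U : Tab, U.1.length ≤ N → φ U = ψ U :=
  ⟨fun T c hT hc => exists_branchExchange T hT c hc, exists_BX⟩

end Pool.Agent.Results.MP_edc67c_co.BranchExchanges
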