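import Mathlib
import Pool.Agent.Work.MP_edc67c_co.Defs

/-!
The tree of standard Young tableaux has an automorphism which is not a composition of transpose
automorphisms (negated form of Q1).

Idea: a composition of transpose automorphisms acts on the children of each vertex either by
keeping the positions of all added cells or by transposing all of them. For `T` of shape
`(3,2,1)`, exchange (by transposition) only the branches at the children of `T` obtained by adding
the cells `(1,4)` and `(4,1)`, and fix everything else.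
-/

namespace Pool.Agent.Results.MP_edc67c_co.NotAllTransposes

open Pool.Agent.Work.MP_edc67c_co

/-- `ψ` is the transpose automorphism at `T`: the shape of `T` is symmetric, `ψ` maps every
descendant `T ∪ S` of `T` to `T ∪ Sᵗ`, and `ψ` fixes all other tableaux. -/
def IsTransposeAut (T : Tab) (ψ : tree ≃g tree) : Prop :=
  SymmShape T.1 ∧
    (∀ (U : Tab) (s : List (ℕ × ℕ)), U.1 = s ++ T.1 → (ψ U).1 = s.map Prod.swap ++ T.1) ∧
    ∀ U : Tab, (¬ ∃ s, U.1 = s ++ T.1) → ψ U = U

/-- There is a transpose automorphism at every tableau of symmetric shape. -/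
lemma isTransposeAut_transposeAut (T : Tab) (hT : SymmShape T.1) :
    IsTransposeAut T (transposeAut T hT) :=
  ⟨hT, transposeAut_descendant T hT, transposeAut_other T hT⟩

/-- uniform local behaviour -/
def Uniform (ψ : tree ≃g tree) : Prop :=
  ∀ U : Tab, (∀ c (W : Tab), W.1 = c :: U.1 ↔ (ψ W).1 = c :: (ψ U).1) ∨
    (∀ c (W : Tab), W.1 = c :: U.1 ↔ (ψ W).1 = Prod.swap c :: (ψ U).1)

lemma uniform_one : Uniform 1 := fun U => Or.inl fun c W => Iff.rfl

lemma uniform_mul (ψ χ : tree ≃g tree) (h1 : Uniform ψ) (h2 : Uniform χ) : Uniform (ψ * χ) := by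
  intro U
  rcases h2 U with h | h <;> rcases h1 (χ U) with h' | h'
  · exact Or.inl fun c W => (h c W).trans (h' c (χ W))
  · exact Or.inr fun c W => (h c W).trans (h' c (χ W))
  · exact Or.inr fun c W => (h c W).trans (h' _ (χ W))
  · refine Or.inl fun c W => (h c W).trans ?_
    have := h' (Prod.swap c) (χ W)
    rw [Prod.swap_swap] at this
    exact this

lemma uniform_inv (ψ : tree ≃g tree) (h : Uniform ψ) : Uniform ψ⁻¹ := by
  intro U
  have e : ∀ V : Tab, ψ (ψ⁻¹ V) = V := fun V => ψ.apply_symm_apply V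
  rcases h (ψ⁻¹ U) with h | h
  · left
    intro c W
    have := h c (ψ⁻¹ W)
    rw [e, e] at this
    exact this.symm
  · right
    intro c W
    have := h (Prod.swap c) (ψ⁻¹ W)
    rw [e, e, Prod.swap_swap] at this
    exact this.symm

lemma uniform_transpose (T : Tab) (ψ : tree ≃g tree) (h : IsTransposeAut T ψ) : Uniform ψ := by
  obtain ⟨-, h1, h2⟩ := h
  intro U
  by_cases hU : ∃ s, U.1 = s ++ T.1
  · obtain ⟨s, hs⟩ := hU
    right
    intro c W
    rw [h1 U s hs]
    constructor
    · intro hW
      rw [h1 W (c :: s) (by rw [hW, hs]; rfl)]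
      rfl
    · intro hW
      by_cases hW' : ∃ s', W.1 = s' ++ T.1
      · obtain ⟨s', hs'⟩ := hW'
        rw [h1 W s' hs'] at hW
        have h3 : s'.map Prod.swap ++ T.1 = (c :: s).map Prod.swap ++ T.1 := by
          rw [hW]; rfl
        have h4 := List.append_cancel_right h3
        have h5 := List.map_injective_iff.mpr Prod.swap_injective h4
        rw [hs', h5, hs]
        rfl
      · exfalso
        rw [h2 W hW'] at hW
        exact hW' ⟨Prod.swap c :: s.map Prod.swap, by rw [hW]; rfl⟩
  · left
    intro c W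
    rw [h2 U hU]
    by_cases hW' : ∃ s', W.1 = s' ++ T.1
    · obtain ⟨s', hs'⟩ := hW'
      rw [h1 W s' hs']
      rcases s' with _ | ⟨d, s'⟩
      · rw [hs']; rfl
      · constructor
        · intro hW
          rw [hs'] at hW
          simp only [List.cons_append, List.cons.injEq] at hW
          exact absurd ⟨s', hW.2.symm⟩ hU
        · intro hW
          simp only [List.map_cons, List.cons_append, List.cons.injEq] at hW
          exact absurd ⟨_, hW.2.symm⟩ hU
    · rw [h2 W hW']

/-- The tableau with rows `1 2 3`, `4 5`, `6`. -/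
def T₀ : Tab := ⟨[(2, 0), (1, 1), (1, 0), (0, 2), (0, 1), (0, 0)], by
  simp [IsTableau, Addable]⟩

lemma T₀_symm : SymmShape T₀.1 := by
  intro c
  obtain ⟨a, b⟩ := c
  simp only [T₀, List.mem_cons, Prod.mk.injEq, List.not_mem_nil, or_false, Prod.swap_prod_mk]
  omega

/-- the branches to be exchanged -/
def P₀ (s : List (ℕ × ℕ)) : Prop := s.getLast? = some (0, 3) ∨ s.getLast? = some (3, 0)

/-- the exceptional automorphism -/
noncomputable def φ₀ : tree ≃g tree :=
  condAut T₀ T₀_symm P₀ (by
    intro s
    unfold P₀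
    rw [List.getLast?_map]
    rcases s.getLast? with _ | ⟨a, b⟩
    · simp
    · simp only [Option.map_some, Option.some.injEq, Prod.swap_prod_mk, Prod.mk.injEq]
      omega) (by
    intro c s hs
    unfold P₀
    rw [List.getLast?_cons_of_ne_nil hs])

/-- Negated form of Q1: there are an automorphism `φ` of the tree of standard Young tableaux and
an `N` such that no composition of transpose automorphisms agrees with `φ` on all tableaux of
size at most `N`. -/
theorem result : ∃ (φ : tree ≃g tree) (N : ℕ),
    ∀ ψ ∈ Subgroup.closure {ψ : tree ≃g tree | ∃ T : Tab, IsTransposeAut T ψ},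
      ∃ U : Tab, U.1.length ≤ N ∧ φ U ≠ ψ U := by
  refine ⟨φ₀, 7, ?_⟩
  intro ψ hψ
  have hU : Uniform ψ := by
    induction hψ using Subgroup.closure_induction with
    | mem ψ h =>
      obtain ⟨T, hT⟩ := h
      exact uniform_transpose T ψ hT
    | one => exact uniform_one
    | mul ψ χ _ _ h1 h2 => exact uniform_mul ψ χ h1 h2
    | inv ψ _ h => exact uniform_inv ψ h
  by_contra hcon
  push Not at hcon
  have hW1 : IsTableau ((0, 3) :: T₀.1) := by simp [T₀, IsTableau, Addable]
  have hW2 : IsTableau ((1, 2) :: T₀.1) := by simp [T₀, IsTableau, Addable]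
  obtain ⟨W1, hW1e⟩ : ∃ W : Tab, W.1 = (0, 3) :: T₀.1 := ⟨⟨_, hW1⟩, rfl⟩
  obtain ⟨W2, hW2e⟩ : ∃ W : Tab, W.1 = (1, 2) :: T₀.1 := ⟨⟨_, hW2⟩, rfl⟩
  have hlen : T₀.1.length = 6 := rfl
  have f0 : (φ₀ T₀).1 = T₀.1 := by
    change condFlip T₀.1 P₀ T₀.1 = _
    unfold condFlip
    rw [if_neg]
    rintro ⟨s, hs, hs'⟩
    have : s = [] := by
      have := congrArg List.length hs'
      rw [List.length_append] at this
      exact List.length_eq_zero_iff.mp (by omega)
    rw [this] at hs
    simp [P₀] at hs
  have f1 : (φ₀ W1).1 = (3, 0) :: T₀.1 := by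
    change condFlip T₀.1 P₀ W1.1 = _
    unfold condFlip
    rw [if_pos ⟨[(0, 3)], by simp [P₀], by rw [hW1e]; rfl⟩, hW1e]
    exact flipAbove_append T₀.1 [(0, 3)]
  have f2 : (φ₀ W2).1 = (1, 2) :: T₀.1 := by
    change condFlip T₀.1 P₀ W2.1 = _
    unfold condFlip
    rw [if_neg, hW2e]
    rintro ⟨s, hs, hs'⟩
    rw [hW2e] at hs'
    have h3 : s = [(1, 2)] := by
      have h4 : [(1, 2)] ++ T₀.1 = s ++ T₀.1 := hs'
      exact (List.append_cancel_right h4).symm
    rw [h3] at hs
    simp [P₀] at hs
  have g0 := hcon T₀ (by rw [hlen]; omega)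
  have g1 := hcon W1 (by rw [hW1e, List.length_cons, hlen])
  have g2 := hcon W2 (by rw [hW2e, List.length_cons, hlen])
  rw [g0] at f0
  rw [g1] at f1
  rw [g2] at f2
  rcases hU T₀ with h | h
  · have := (h (0, 3) W1).mp hW1e
    rw [f1, f0] at this
    simp at this
  · have := (h (1, 2) W2).mp hW2e
    rw [f2, f0] at this
    simp at this

end Pool.Agent.Results.MP_edc67c_co.NotAllTransposes
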