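import Pool.Agent.Work.MP_edc67c_co.Census

/-!
The census of the descendants with exactly two children determines the shape of a standard Young
tableau up to transposition.
-/

namespace Pool.Agent.Results.MP_edc67c_co.TwoChildrenCensus

open Pool.Agent.Work.MP_edc67c_co

/-- Two standard Young tableaux have, for every `k`, the same number of descendants at depth `k`
with exactly two children if and only if their shapes are equal or conjugate. -/
theorem result (T U : Tab) : (∀ k, twoCensus T k = twoCensus U k) ↔
    (∀ c, c ∈ U.1 ↔ c ∈ T.1) ∨ (∀ c : ℕ × ℕ, c ∈ U.1 ↔ c.swap ∈ T.1) :=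
  twoCensus_iff T U

end Pool.Agent.Results.MP_edc67c_co.TwoChildrenCensus
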